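import Pool.Agent.Helper45.PQ.StK

/-!
# Project PQ (MP_a1f43d_co): module KAP (the number of singular points in the hyperplanes of `Q(4,q)`)
-/

set_option autoImplicit false

open Module Classical
open scoped LinearAlgebra.Projectivization

namespace Pool.Agent.Helper8.PQ

open Pool.Agent.Helper45.PQ

universe u v

/-- The double count, for arbitrary functions `f1`, `f2` on a finite set `A`. -/
private lemma count {F : Type u} [Field F] [Fintype F] {ι : Type v} (A : Finset ι) (f1 f2 : ι → F)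
    (φ : F) (hφ : φ ≠ 0) (q : ℕ) (hq : Nat.card F = q)
    (hA : A.card = (q + 1) * (q ^ 2 + 1)) (h1 : (A.filter (fun z => f1 z ≠ 0)).card = q ^ 3)
    (h2 : (A.filter (fun z => f2 z ≠ 0)).card = q ^ 3)
    (h12 : (A.filter (fun z => f1 z = 0 ∧ f2 z = 0)).card = q + 1) :
    ((∑ a ∈ (Finset.univ : Finset F).erase 0,
      (A.filter (fun z => f1 z + a * φ⁻¹ * f2 z = 0)).card : ℕ) : ℤ) =
      ((q : ℤ) - 1) * (q + 1) + (q : ℤ) ^ 3 - (q : ℤ) ^ 2 := by
  obtain ⟨B, hB⟩ : ∃ B : Finset ι, B = A.filter (fun z => f1 z ≠ 0 ∧ f2 z ≠ 0) := ⟨_, rfl⟩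
  obtain ⟨g, hg⟩ : ∃ g : ι → F, g = fun z => -(φ * f1 z / f2 z) := ⟨_, rfl⟩
  have hterm : ∀ a ∈ (Finset.univ : Finset F).erase 0,
      (A.filter (fun z => f1 z + a * φ⁻¹ * f2 z = 0)).card = (q + 1) + (B.filter (fun z => g z = a)).card := by
    intro a ha
    have ha0 : a ≠ 0 := Finset.ne_of_mem_erase ha
    have hdis : Disjoint (A.filter (fun z => f1 z = 0 ∧ f2 z = 0)) (B.filter (fun z => g z = a)) := by
      rw [Finset.disjoint_left]
      intro z hz1 hz2
      rw [Finset.mem_filter] at hz1 hz2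
      rw [hB, Finset.mem_filter] at hz2
      exact hz2.1.2.1 hz1.2.1
    have hun : A.filter (fun z => f1 z + a * φ⁻¹ * f2 z = 0) =
        A.filter (fun z => f1 z = 0 ∧ f2 z = 0) ∪ B.filter (fun z => g z = a) := by
      ext z
      rw [Finset.mem_union, Finset.mem_filter, Finset.mem_filter, Finset.mem_filter, hB, Finset.mem_filter, hg]
      simp only
      have hap : a * φ⁻¹ ≠ 0 := mul_ne_zero ha0 (inv_ne_zero hφ)
      constructor
      · rintro ⟨hzA, hz⟩
        by_cases hf2 : f2 z = 0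
        · left
          refine ⟨hzA, ?_, hf2⟩
          rw [hf2, mul_zero, add_zero] at hz
          exact hz
        · right
          have hf1 : f1 z ≠ 0 := by
            intro h0
            rw [h0, zero_add] at hz
            rcases mul_eq_zero.1 hz with h | h
            · exact hap h
            · exact hf2 h
          refine ⟨⟨hzA, hf1, hf2⟩, ?_⟩
          have h3 : f1 z = -(a * φ⁻¹ * f2 z) := eq_neg_of_add_eq_zero_left hz
          rw [h3]
          field_simp
      · rintro (⟨hzA, hz1, hz2⟩ | ⟨⟨hzA, hf1, hf2⟩, hz⟩)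
        · refine ⟨hzA, ?_⟩
          rw [hz1, hz2, mul_zero, add_zero]
        · refine ⟨hzA, ?_⟩
          rw [← hz]
          field_simp
          ring
    rw [hun, Finset.card_union_of_disjoint hdis, h12]
  have hmaps : ∀ z ∈ B, g z ∈ (Finset.univ : Finset F).erase 0 := by
    intro z hz
    rw [hB, Finset.mem_filter] at hz
    refine Finset.mem_erase.2 ⟨?_, Finset.mem_univ _⟩
    rw [hg]
    exact neg_ne_zero.2 (div_ne_zero (mul_ne_zero hφ hz.2.1) hz.2.2)
  have hBsum : B.card = ∑ a ∈ (Finset.univ : Finset F).erase 0, (B.filter (fun z => g z = a)).card :=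
    Finset.card_eq_sum_card_fiberwise hmaps
  have hsum : ∑ a ∈ (Finset.univ : Finset F).erase 0,
      (A.filter (fun z => f1 z + a * φ⁻¹ * f2 z = 0)).card = (q - 1) * (q + 1) + B.card := by
    rw [Finset.sum_congr rfl hterm, Finset.sum_add_distrib, ← hBsum, Finset.sum_const,
      Finset.card_erase_of_mem (Finset.mem_univ _), Finset.card_univ, ← Nat.card_eq_fintype_card, hq,
      smul_eq_mul]
  have hq1 : 1 < q := by
    rw [← hq]
    exact Finite.one_lt_card
  have e1 := Finset.card_filter_add_card_filter_not (s := A) (fun z => f1 z = 0)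
  have e2 := Finset.card_filter_add_card_filter_not (s := A.filter (fun z => f1 z = 0)) (fun z => f2 z = 0)
  have e3 := Finset.card_filter_add_card_filter_not (s := A.filter (fun z => f2 z ≠ 0)) (fun z => f1 z = 0)
  rw [Finset.filter_filter, Finset.filter_filter] at e2 e3
  have e4 : (A.filter (fun z => f1 z = 0 ∧ ¬ f2 z = 0)).card = (A.filter (fun z => f2 z ≠ 0 ∧ f1 z = 0)).card := by
    congr 1
    ext z
    simp only [Finset.mem_filter, ne_eq]
    tauto
  have e5 : (A.filter (fun z => f2 z ≠ 0 ∧ ¬ f1 z = 0)).card = B.card := by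
    rw [hB]
    congr 1
    ext z
    simp only [Finset.mem_filter, ne_eq]
    tauto
  have h1' : (A.filter (fun z => ¬ f1 z = 0)).card = q ^ 3 := h1
  rw [h1', hA] at e1
  rw [h12, e4] at e2
  rw [h2, e5] at e3
  rw [hsum]
  zify [hq1.le] at *
  nlinarith

private lemma sp_prp {F : Type u} [Field F] {V : Type v} [AddCommGroup V] [Module F V] [Finite V]
    (Q : QuadraticForm F V) (w : V) :
    sp Q (prp Q w) = (sp Q (⊤ : Submodule F V)).filter (fun z => QuadraticMap.polar Q w z.rep = 0) := by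
  ext z
  rw [Finset.mem_filter, mem_sp, mem_sp, mem_prp]
  constructor
  · rintro ⟨h1, h2⟩
    exact ⟨⟨Submodule.mem_top, h2⟩, h1⟩
  · rintro ⟨⟨-, h2⟩, h1⟩
    exact ⟨h1, h2⟩

private lemma sp_prp2 {F : Type u} [Field F] {V : Type v} [AddCommGroup V] [Module F V] [Finite V]
    (Q : QuadraticForm F V) (w w' : V) :
    sp Q (prp Q w ⊓ prp Q w') = (sp Q (⊤ : Submodule F V)).filter
      (fun z => QuadraticMap.polar Q w z.rep = 0 ∧ QuadraticMap.polar Q w' z.rep = 0) := by
  ext z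
  rw [Finset.mem_filter, mem_sp, mem_sp, Submodule.mem_inf, mem_prp, mem_prp]
  constructor
  · rintro ⟨h1, h2⟩
    exact ⟨⟨Submodule.mem_top, h2⟩, h1⟩
  · rintro ⟨⟨-, h2⟩, h1⟩
    exact ⟨h1, h2⟩

theorem hKAP (h1 : StGQA.{u, v}) (h2 : StNWD.{u, v}) (h3 : StNWR.{u, v}) (h4 : StETA.{u}) : StKAP.{u, v} := by
  intro F _ _ hF V _ _ _ _ Q hQ
  obtain ⟨g1, g2, g3, -⟩ := h1 F V Q hQ
  have hd := h2 F hF V Q hQ
  obtain ⟨t1, t2, -, t4, t5⟩ := h4 F hF
  obtain ⟨q, hq⟩ : ∃ q, Nat.card F = q := ⟨_, rfl⟩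
  have hq1 : 1 < q := by
    rw [← hq]
    exact Finite.one_lt_card
  rw [hq] at g1 g2 g3 hd t4
  -- two singular points which are not perpendicular
  have hne : (sp Q (⊤ : Submodule F V)).Nonempty := by
    rw [← Finset.card_pos, g2]
    positivity
  obtain ⟨y₁, hy₁⟩ := hne
  have hy₁' := (mem_sp.1 hy₁).2
  have hne2 : ((sp Q (⊤ : Submodule F V)).filter (fun y => QuadraticMap.polar Q y₁.rep y.rep ≠ 0)).Nonempty := by
    rw [← Finset.card_pos, g3 y₁ hy₁']
    positivity
  obtain ⟨y₂, hy₂⟩ := hne2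
  rw [Finset.mem_filter] at hy₂
  obtain ⟨hy₂a, hφ⟩ := hy₂
  have hy₂' := (mem_sp.1 hy₂a).2
  obtain ⟨φ, hφe⟩ : ∃ φ, QuadraticMap.polar Q y₁.rep y₂.rep = φ := ⟨_, rfl⟩
  rw [hφe] at hφ
  obtain ⟨w, hw⟩ : ∃ w : F → V, w = fun a => y₁.rep + (a * φ⁻¹) • y₂.rep := ⟨_, rfl⟩
  have hQw : ∀ a, Q (w a) = a := by
    intro a
    rw [hw]
    simp only
    rw [QuadraticMap.map_add Q, QuadraticMap.map_smul, hy₁', hy₂', QuadraticMap.polar_smul_right, hφe]
    simp only [smul_eq_mul, mul_zero, zero_add]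
    rw [mul_assoc, inv_mul_cancel₀ hφ, mul_one]
  -- the double count
  have hcount := count (sp Q (⊤ : Submodule F V)) (fun z => QuadraticMap.polar Q y₁.rep z.rep)
    (fun z => QuadraticMap.polar Q y₂.rep z.rep) φ hφ q hq g2 (g3 y₁ hy₁') (g3 y₂ hy₂')
    (by
      rw [← sp_prp2]
      exact g1 y₁ y₂ hy₁' hy₂' (by rw [hφe]; exact hφ))
  have hN : ∀ a, (sp Q (prp Q (w a))).card = ((sp Q (⊤ : Submodule F V)).filter
      (fun z => QuadraticMap.polar Q y₁.rep z.rep + a * φ⁻¹ * QuadraticMap.polar Q y₂.rep z.rep = 0)).card := by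
    intro a
    rw [sp_prp, hw]
    congr 1
    ext z
    rw [Finset.mem_filter, Finset.mem_filter, QuadraticMap.polar_add_left, QuadraticMap.polar_smul_left,
      smul_eq_mul]
  have hcount2 : ((∑ a ∈ (Finset.univ : Finset F).erase 0, (sp Q (prp Q (w a))).card : ℕ) : ℤ) =
      ((q : ℤ) - 1) * (q + 1) + (q : ℤ) ^ 3 - (q : ℤ) ^ 2 := by
    rw [← hcount]
    congr 1
    exact Finset.sum_congr rfl (fun a _ => hN a)
  -- two representatives
  have hk1 := t4 1 (Or.inl rfl)
  have hk2 := t4 (-1) (Or.inr rfl)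
  have hpos1 : 0 < (Finset.univ.filter (fun a : F => eta a = 1)).card := by omega
  have hpos2 : 0 < (Finset.univ.filter (fun a : F => eta a = -1)).card := by omega
  obtain ⟨a1, ha1⟩ := Finset.card_pos.1 hpos1
  obtain ⟨a2, ha2⟩ := Finset.card_pos.1 hpos2
  rw [Finset.mem_filter] at ha1 ha2
  have ha1e := ha1.2
  have ha2e := ha2.2
  have heta0 : eta (0 : F) = 0 := by
    unfold eta
    rw [if_pos rfl]
  have ha10 : a1 ≠ 0 := by
    intro h
    rw [h, heta0] at ha1e
    exact absurd ha1e (by norm_num)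
  have ha20 : a2 ≠ 0 := by
    intro h
    rw [h, heta0] at ha2e
    exact absurd ha2e (by norm_num)
  have hA1 : ∀ x : V, Q x ≠ 0 → eta (Q x) = 1 → (sp Q (prp Q x)).card = (sp Q (prp Q (w a1))).card := by
    intro x hx he
    obtain ⟨d, hd0, hde⟩ := t5 a1 (Q x) ha10 hx (by rw [ha1e, he])
    exact (h3 F hF V Q (w a1) x d (by rw [hQw]; exact ha10) hd0 (by rw [hQw]; exact hde)).symm
  have hA2 : ∀ x : V, Q x ≠ 0 → eta (Q x) = -1 → (sp Q (prp Q x)).card = (sp Q (prp Q (w a2))).card := by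
    intro x hx he
    obtain ⟨d, hd0, hde⟩ := t5 a2 (Q x) ha20 hx (by rw [ha2e, he])
    exact (h3 F hF V Q (w a2) x d (by rw [hQw]; exact ha20) hd0 (by rw [hQw]; exact hde)).symm
  have hun : (Finset.univ : Finset F).erase 0 =
      Finset.univ.filter (fun a : F => eta a = 1) ∪ Finset.univ.filter (fun a : F => eta a = -1) := by
    ext a
    rw [Finset.mem_erase, Finset.mem_union, Finset.mem_filter, Finset.mem_filter]
    constructor
    · rintro ⟨ha, -⟩
      rcases t2 a ha with h | h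
      · exact Or.inl ⟨Finset.mem_univ _, h⟩
      · exact Or.inr ⟨Finset.mem_univ _, h⟩
    · intro ha
      refine ⟨?_, Finset.mem_univ _⟩
      intro h0
      rw [h0, heta0] at ha
      rcases ha with ⟨-, h⟩ | ⟨-, h⟩
      · exact absurd h (by norm_num)
      · exact absurd h (by norm_num)
  have hdis : Disjoint (Finset.univ.filter (fun a : F => eta a = 1))
      (Finset.univ.filter (fun a : F => eta a = -1)) := by
    rw [Finset.disjoint_left]
    intro a h5 h6
    rw [Finset.mem_filter] at h5 h6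
    rw [h5.2] at h6
    exact absurd h6.2 (by norm_num)
  have hsum : ∑ a ∈ (Finset.univ : Finset F).erase 0, (sp Q (prp Q (w a))).card =
      (Finset.univ.filter (fun a : F => eta a = 1)).card * (sp Q (prp Q (w a1))).card +
      (Finset.univ.filter (fun a : F => eta a = -1)).card * (sp Q (prp Q (w a2))).card := by
    rw [hun, Finset.sum_union hdis]
    congr 1
    · rw [Finset.sum_congr rfl (g := fun _ => (sp Q (prp Q (w a1))).card), Finset.sum_const, smul_eq_mul]
      intro a ha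
      rw [Finset.mem_filter] at ha
      refine hA1 _ ?_ ?_
      · rw [hQw]
        intro h0
        rw [h0, heta0] at ha
        exact absurd ha.2 (by norm_num)
      · rw [hQw]
        exact ha.2
    · rw [Finset.sum_congr rfl (g := fun _ => (sp Q (prp Q (w a2))).card), Finset.sum_const, smul_eq_mul]
      intro a ha
      rw [Finset.mem_filter] at ha
      refine hA2 _ ?_ ?_
      · rw [hQw]
        intro h0
        rw [h0, heta0] at ha
        exact absurd ha.2 (by norm_num)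
      · rw [hQw]
        exact ha.2
  have hd1 := hd (w a1) (by rw [hQw]; exact ha10)
  have hd2 := hd (w a2) (by rw [hQw]; exact ha20)
  obtain ⟨A, hAe⟩ : ∃ A, (sp Q (prp Q (w a1))).card = A := ⟨_, rfl⟩
  obtain ⟨B, hBe⟩ : ∃ B, (sp Q (prp Q (w a2))).card = B := ⟨_, rfl⟩
  rw [hAe] at hA1 hsum hd1
  rw [hBe] at hA2 hsum hd2
  rw [hsum] at hcount2
  obtain ⟨k1, hk1e⟩ : ∃ k, (Finset.univ.filter (fun a : F => eta a = 1)).card = k := ⟨_, rfl⟩
  obtain ⟨k2, hk2e⟩ : ∃ k, (Finset.univ.filter (fun a : F => eta a = -1)).card = k := ⟨_, rfl⟩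
  rw [hk1e] at hcount2 hk1
  rw [hk2e] at hcount2 hk2
  have hk1z : 2 * (k1 : ℤ) = q - 1 := by omega
  have hk2z : 2 * (k2 : ℤ) = q - 1 := by omega
  have hqz : (1 : ℤ) < q := by exact_mod_cast hq1
  push_cast at hcount2
  have hAB : (A : ℤ) + B = 2 * ((q : ℤ) ^ 2 + q + 1) := by
    have h5 : ((q : ℤ) - 1) * ((A : ℤ) + B) = ((q : ℤ) - 1) * (2 * ((q : ℤ) ^ 2 + q + 1)) := by
      calc ((q : ℤ) - 1) * ((A : ℤ) + B) = 2 * (k1 : ℤ) * A + 2 * (k2 : ℤ) * B := by
            rw [hk1z, hk2z]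
            ring
        _ = 2 * ((k1 : ℤ) * A + k2 * B) := by ring
        _ = ((q : ℤ) - 1) * (2 * ((q : ℤ) ^ 2 + q + 1)) := by
            rw [hcount2]
            ring
    exact mul_left_cancel₀ (by linarith) h5
  rw [hq]
  rcases hd1 with ⟨hA, -⟩ | hA <;> rcases hd2 with ⟨hB, -⟩ | hB
  · exfalso
    rw [hA, hB] at hAB
    push_cast at hAB
    nlinarith
  · refine ⟨1, Or.inl rfl, ?_⟩
    have hAz : (A : ℤ) = (q : ℤ) ^ 2 + 1 + q * 2 := by
      rw [hA]
      push_cast
      ring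
    have hBz : (B : ℤ) = (q : ℤ) ^ 2 + 1 := by
      linarith
    intro x hx
    rcases t2 (Q x) hx with he | he
    · rw [hA1 x hx he, he, hAz]
      ring
    · rw [hA2 x hx he, he, hBz]
      ring
  · refine ⟨-1, Or.inr rfl, ?_⟩
    have hBz : (B : ℤ) = (q : ℤ) ^ 2 + 1 + q * 2 := by
      rw [hB]
      push_cast
      ring
    have hAz : (A : ℤ) = (q : ℤ) ^ 2 + 1 := by
      linarith
    intro x hx
    rcases t2 (Q x) hx with he | he
    · rw [hA1 x hx he, he, hAz]
      ring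
    · rw [hA2 x hx he, he, hBz]
      ring
  · exfalso
    have hA' : (A : ℤ) ≤ (q : ℤ) ^ 2 + 1 := by exact_mod_cast hA
    have hB' : (B : ℤ) ≤ (q : ℤ) ^ 2 + 1 := by exact_mod_cast hB
    nlinarith

end Pool.Agent.Helper8.PQ
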